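import Pool.Agent.Helper14.TH7.StD

/-!
# Project TH (levels `2·7^n`), module HkF: Hecke formula on the plane
-/

set_option autoImplicit false

namespace Pool.Agent.Helper89.TH7

open Pool.Agent.Helper14.TH7
open Pool.Agent.Helper14.CV (Homog EqC act Tl StFar StFex)
open Pool.Agent.Helper28.WK (Tw evw)
open Pool.Agent.Helper4.S7 (Tm mulL sclL Gd pj S7Pj)
open Pool.Agent.Helper76.TH7 (PlH rYH edgeH HPlA7 HEdg7 ddH7)
open Pool.Agent.Helper84.S7
open Pool.Agent.Helper93.TLH (HTy SymH SHHk SHHkS LBH)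

open Matrix

private theorem dvd_mul3 (l : ℤ) (A B C : Matrix (Fin 2) (Fin 2) ℤ) (h : ∀ i j, l ∣ B i j) :
    ∀ i j, l ∣ (A * B * C) i j := by
  intro i j
  rw [Matrix.mul_apply]
  refine Finset.dvd_sum fun k _ => ?_
  rw [Matrix.mul_apply]
  exact Dvd.dvd.mul_right (Finset.dvd_sum fun m _ => Dvd.dvd.mul_left (h m k) _) _

private theorem key (l : ℤ) (h h' gi N N' : Matrix (Fin 2) (Fin 2) ℤ) (h1 : h.det = 1)
    (h2 : h'.det = 1) (h3 : gi.det = 1)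
    (H : ∀ i j, l ∣ (h * N * gi * (h' * N' * gi).adjugate) i j) :
    ∀ i j, l ∣ (N * N'.adjugate) i j := by
  have e1 : gi * gi.adjugate = 1 := by rw [Matrix.mul_adjugate, h3, one_smul]
  have e2 : h.adjugate * h = 1 := by rw [Matrix.adjugate_mul, h1, one_smul]
  have e3 : h'.adjugate * h' = 1 := by rw [Matrix.adjugate_mul, h2, one_smul]
  have e4 : h.adjugate * (h * N * gi * (h' * N' * gi).adjugate) * h' = N * N'.adjugate := by
    rw [Matrix.adjugate_mul_distrib, Matrix.adjugate_mul_distrib]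
    calc h.adjugate * (h * N * gi * (gi.adjugate * (N'.adjugate * h'.adjugate))) * h'
        = (h.adjugate * h) * N * (gi * gi.adjugate) * N'.adjugate * (h'.adjugate * h') := by
          simp only [Matrix.mul_assoc]
      _ = N * N'.adjugate := by
          rw [e1, e2, e3, Matrix.one_mul, Matrix.mul_one, Matrix.mul_one]
  rw [← e4]
  exact dvd_mul3 l _ _ _ H

/-- standard matrix -/
private def sm (X Y d : ℤ) : Matrix (Fin 2) (Fin 2) ℤ := !![1, X; 7 * Y, d]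

/-- its inverse -/
private def si (X Y d : ℤ) : Matrix (Fin 2) (Fin 2) ℤ := !![d, -X; -(7 * Y), 1]

private theorem sm_det (X Y d : ℤ) (h : d - 7 * X * Y = 1) : (sm X Y d).det = 1 := by
  rw [sm, Matrix.det_fin_two_of]
  linear_combination h

private theorem si_det (X Y d : ℤ) (h : d - 7 * X * Y = 1) : (si X Y d).det = 1 := by
  rw [si, Matrix.det_fin_two_of]
  linear_combination h

private def DJ (X' Y' d' X Y d j l : ℤ) : Matrix (Fin 2) (Fin 2) ℤ :=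
  sm X' Y' d' * !![1, j; 0, l] * si X Y d

private def DI (X' Y' d' X Y d l : ℤ) : Matrix (Fin 2) (Fin 2) ℤ :=
  sm X' Y' d' * !![l, 0; 0, 1] * si X Y d

private theorem DJ_eq (X' Y' d' X Y d j l : ℤ) : DJ X' Y' d' X Y d j l =
    !![d - (j + X' * l) * (7 * Y), -X + (j + X' * l);
       7 * Y' * d - (7 * Y' * j + d' * l) * (7 * Y),
       -(7 * Y') * X + (7 * Y' * j + d' * l)] := by
  rw [DJ, sm, si]
  ext i k
  fin_cases i <;> fin_cases k <;> simp [Matrix.mul_apply, Fin.sum_univ_two] <;> ring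

private theorem DI_eq (X' Y' d' X Y d l : ℤ) : DI X' Y' d' X Y d l =
    !![l * d - X' * (7 * Y), -(l * X) + X';
       7 * Y' * l * d - d' * (7 * Y), -(7 * Y' * l) * X + d'] := by
  rw [DI, sm, si]
  ext i k
  fin_cases i <;> fin_cases k <;> simp [Matrix.mul_apply, Fin.sum_univ_two] <;> ring

private theorem dvd_seven_pow (r : ℕ) (z : ℤ) (h : ((z : ℤ) : ZMod (7 ^ r)) = 0) :
    (7 : ℤ) ^ r ∣ z := by
  have h1 : ((7 ^ r : ℕ) : ℤ) ∣ z := (ZMod.intCast_zmod_eq_zero_iff_dvd z (7 ^ r)).1 h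
  push_cast at h1
  exact h1

private theorem dvd_seven_pow_succ (r : ℕ) (z : ℤ) (h : ((z : ℤ) : ZMod (7 ^ r)) = 0) :
    (7 : ℤ) ^ (r + 1) ∣ 7 * z := by
  rw [pow_succ, mul_comm]
  exact mul_dvd_mul_left 7 (dvd_seven_pow r z h)

private theorem isUnit_one_sub_seven (s : ℕ) (z : ZMod (7 ^ s)) : IsUnit (1 - 7 * z) := by
  apply IsNilpotent.isUnit_one_sub
  refine ⟨s, ?_⟩
  have h : ((7 : ZMod (7 ^ s)) ^ s) = 0 := by
    have := ZMod.natCast_self (7 ^ s)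
    push_cast at this
    exact this
  rw [mul_pow, h, zero_mul]

private theorem tr_inf {R : Type} (r s l : ℕ) (F : ZMod (7 ^ r) → ZMod (7 ^ s) → R)
    (x : ZMod (7 ^ r)) (y : ZMod (7 ^ s)) :
    tr7 1 0 0 (l : ℤ) F x y = F ((l : ZMod (7 ^ r)) * x) (y * (l : ZMod (7 ^ s))⁻¹) := by
  unfold tr7
  have e1 : (((0 : ℤ) : ZMod (7 ^ r)) + (((l : ℕ) : ℤ) : ZMod (7 ^ r)) * x) = (l : ZMod (7 ^ r)) * x := by
    push_cast
    ring
  have e2 : (((1 : ℤ) : ZMod (7 ^ r)) + 7 * ((0 : ℤ) : ZMod (7 ^ r)) * x) = 1 := by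
    push_cast
    ring
  have e3 : (((0 : ℤ) : ZMod (7 ^ s)) + ((1 : ℤ) : ZMod (7 ^ s)) * y) = y := by
    push_cast
    ring
  have e4 : ((((l : ℕ) : ℤ) : ZMod (7 ^ s)) + 7 * ((0 : ℤ) : ZMod (7 ^ s)) * y) = (l : ZMod (7 ^ s)) := by
    push_cast
    ring
  rw [e1, e2, e3, e4, ZMod.inv_one, mul_one]

private theorem tr_j {R : Type} (r s l : ℕ) (j : ℤ) (F : ZMod (7 ^ r) → ZMod (7 ^ s) → R)
    (x : ZMod (7 ^ r)) (y : ZMod (7 ^ s)) :
    tr7 (l : ℤ) (-j) 0 1 F x y = F ((x - (j : ZMod (7 ^ r))) * (l : ZMod (7 ^ r))⁻¹)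
      ((l : ZMod (7 ^ s)) * y * (1 - 7 * (j : ZMod (7 ^ s)) * y)⁻¹) := by
  unfold tr7
  have e1 : (((-j : ℤ) : ZMod (7 ^ r)) + ((1 : ℤ) : ZMod (7 ^ r)) * x) = x - (j : ZMod (7 ^ r)) := by
    push_cast
    ring
  have e2 : ((((l : ℕ) : ℤ) : ZMod (7 ^ r)) + 7 * ((0 : ℤ) : ZMod (7 ^ r)) * x) = (l : ZMod (7 ^ r)) := by
    push_cast
    ring
  have e3 : (((0 : ℤ) : ZMod (7 ^ s)) + (((l : ℕ) : ℤ) : ZMod (7 ^ s)) * y) = (l : ZMod (7 ^ s)) * y := by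
    push_cast
    ring
  have e4 : (((1 : ℤ) : ZMod (7 ^ s)) + 7 * ((-j : ℤ) : ZMod (7 ^ s)) * y) =
      1 - 7 * (j : ZMod (7 ^ s)) * y := by
    push_cast
    ring
  rw [e1, e2, e3, e4]

private theorem pla0 (h : HPlA7) (r s : ℕ) (x : ZMod (7 ^ r)) (y : ZMod (7 ^ s)) :
    (((x.val : ℕ) : ℤ) : ZMod (7 ^ r)) = x ∧
      ((rYH 0 x y : ℤ) : ZMod (7 ^ s)) =
        y * ((1 + 7 * ((x.val : ℕ) : ℤ) * rYH 0 x y : ℤ) : ZMod (7 ^ s)) ∧
      (2 : ℤ) ∣ rYH 0 x y := by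
  obtain ⟨_, h2, h3⟩ := h 0 r s x y
  rw [zero_add, pow_one] at h3
  refine ⟨?_, h3, Dvd.intro _ rfl⟩
  rw [Int.cast_one, mul_one] at h2
  exact h2

private theorem edge0 {R : Type} [AddCommGroup R] (r s : ℕ) (u1 u2 v1 v2 : ℤ) (G : ℤ → ℤ → R)
    (x : ZMod (7 ^ r)) (y : ZMod (7 ^ s)) :
    edgeH 0 u1 u2 v1 v2 G x y =
      G (u1 + ((x.val : ℕ) : ℤ) * u2)
        (7 * rYH 0 x y * u1 + (1 + 7 * ((x.val : ℕ) : ℤ) * rYH 0 x y) * u2) -
      G (v1 + ((x.val : ℕ) : ℤ) * v2)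
        (7 * rYH 0 x y * v1 + (1 + 7 * ((x.val : ℕ) : ℤ) * rYH 0 x y) * v2) := by
  simp only [edgeH, pow_zero, one_mul, zero_add, pow_one]

theorem hHkF (hHkB : THkB) (_he : HEdg7) (hPlA7 : HPlA7) : THkF := by
  have hPlA := pla0 hPlA7
  intro R _ r s l G J hl hl2 hl22 hG hJ hJ' u1 u2 v1 v2 hu hv x y
  have hodd : Nat.Coprime l 7 := by
    rw [Nat.coprime_primes hl (by norm_num)]
    exact hl2
  have hlr : (l : ZMod (7 ^ r)) * (l : ZMod (7 ^ r))⁻¹ = 1 :=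
    ZMod.coe_mul_inv_eq_one l (Nat.Coprime.pow_right r hodd)
  have hls : (l : ZMod (7 ^ s)) * (l : ZMod (7 ^ s))⁻¹ = 1 :=
    ZMod.coe_mul_inv_eq_one l (Nat.Coprime.pow_right s hodd)
  have hl0 : (l : ℤ) ≠ 0 := by exact_mod_cast hl.ne_zero
  -- the matrix g
  set X : ℤ := (x.val : ℤ) with hX
  set Y : ℤ := rYH 0 x y with hY
  set d : ℤ := 1 + 7 * X * Y with hd
  obtain ⟨g2, g3, g4⟩ := hPlA r s x y
  rw [← hX, ← hY, ← hd] at g3
  rw [← hX] at g2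
  rw [← hY] at g4
  have hdet : d - 7 * X * Y = 1 := by rw [hd]; ring
  -- the matrices g_j and g_∞
  set xj : ℤ → ZMod (7 ^ r) := fun j => (x - ((j : ℤ) : ZMod (7 ^ r))) * (l : ZMod (7 ^ r))⁻¹ with hxj
  set yj : ℤ → ZMod (7 ^ s) := fun j => (l : ZMod (7 ^ s)) * y *
    (1 - 7 * ((j : ℤ) : ZMod (7 ^ s)) * y)⁻¹ with hyj
  set Xj : ℤ → ℤ := fun j => ((xj j).val : ℤ) with hXj
  set Yj : ℤ → ℤ := fun j => rYH 0 (xj j) (yj j) with hYj
  set dj : ℤ → ℤ := fun j => 1 + 7 * Xj j * Yj j with hdj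
  set xi : ZMod (7 ^ r) := (l : ZMod (7 ^ r)) * x with hxi
  set yi : ZMod (7 ^ s) := y * (l : ZMod (7 ^ s))⁻¹ with hyi
  set Xi : ℤ := ((xi).val : ℤ) with hXi
  set Yi : ℤ := rYH 0 xi yi with hYi
  set di : ℤ := 1 + 7 * Xi * Yi with hdi
  have hdetj : ∀ j, dj j - 7 * Xj j * Yj j = 1 := by intro j; rw [hdj]; ring
  have hdeti : di - 7 * Xi * Yi = 1 := by rw [hdi]; ring
  have pj : ∀ j, ((Xj j : ℤ) : ZMod (7 ^ r)) = xj j ∧ ((Yj j : ℤ) : ZMod (7 ^ s)) = yj j * ((dj j : ℤ) : ZMod (7 ^ s)) ∧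
      (2 : ℤ) ∣ Yj j := by
    intro j
    exact hPlA r s (xj j) (yj j)
  have pi' : ((Xi : ℤ) : ZMod (7 ^ r)) = xi ∧ ((Yi : ℤ) : ZMod (7 ^ s)) = yi * ((di : ℤ) : ZMod (7 ^ s)) ∧
      (2 : ℤ) ∣ Yi := by
    exact hPlA r s xi yi
  have pg : ((X : ℤ) : ZMod (7 ^ r)) = x ∧ ((Y : ℤ) : ZMod (7 ^ s)) = y * ((d : ℤ) : ZMod (7 ^ s)) :=
    ⟨g2, g3⟩
  -- congruences
  have cj1 : ∀ j : ℤ, (7 : ℤ) ^ r ∣ j + Xj j * l - X := by
    intro j
    apply dvd_seven_pow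
    push_cast
    rw [(pj j).1, pg.1, hxj]
    linear_combination (x - (j : ZMod (7 ^ r))) * hlr
  have cj2 : ∀ j : ℤ, (7 : ℤ) ^ (s + 1) ∣ 7 * (Yj j * d - (7 * Yj j * j + dj j * l) * Y) := by
    intro j
    apply dvd_seven_pow_succ
    have hu := ZMod.mul_inv_of_unit _ (isUnit_one_sub_seven s ((j : ZMod (7 ^ s)) * y))
    rw [← mul_assoc] at hu
    have h3 : ((Yj j : ℤ) : ZMod (7 ^ s)) * (1 - 7 * (j : ZMod (7 ^ s)) * y) =
        (l : ZMod (7 ^ s)) * y * ((dj j : ℤ) : ZMod (7 ^ s)) := by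
      rw [(pj j).2.1, hyj]
      linear_combination ((l : ZMod (7 ^ s)) * y * ((dj j : ℤ) : ZMod (7 ^ s))) * hu
    have h4 := pg.2
    have e : ((Yj j * d - (7 * Yj j * j + dj j * l) * Y : ℤ) : ZMod (7 ^ s)) =
        ((Yj j : ℤ) : ZMod (7 ^ s)) * ((d : ℤ) : ZMod (7 ^ s)) -
          (7 * ((Yj j : ℤ) : ZMod (7 ^ s)) * (j : ZMod (7 ^ s)) +
            ((dj j : ℤ) : ZMod (7 ^ s)) * (l : ZMod (7 ^ s))) * ((Y : ℤ) : ZMod (7 ^ s)) := by
      push_cast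
      ring
    rw [e, h4]
    linear_combination ((d : ℤ) : ZMod (7 ^ s)) * h3
  have ci1 : (7 : ℤ) ^ r ∣ Xi - l * X := by
    apply dvd_seven_pow
    push_cast
    rw [pi'.1, pg.1, hxi]
    ring
  have ci2 : (7 : ℤ) ^ (s + 1) ∣ 7 * (Yi * l * d - di * Y) := by
    apply dvd_seven_pow_succ
    have e : ((Yi * l * d - di * Y : ℤ) : ZMod (7 ^ s)) =
        ((Yi : ℤ) : ZMod (7 ^ s)) * (l : ZMod (7 ^ s)) * ((d : ℤ) : ZMod (7 ^ s)) -
          ((di : ℤ) : ZMod (7 ^ s)) * ((Y : ℤ) : ZMod (7 ^ s)) := by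
      push_cast
      ring
    rw [e, pi'.2.1, pg.2, hyi]
    linear_combination (y * ((di : ℤ) : ZMod (7 ^ s)) * ((d : ℤ) : ZMod (7 ^ s))) * hls
  have h2c : IsCoprime (2 : ℤ) ((7 : ℤ) ^ (s + 1)) := by
    refine IsCoprime.pow_right ?_
    exact ⟨-3, 1, by norm_num⟩
  have cj3 : ∀ j : ℤ, 2 * (7 : ℤ) ^ (s + 1) ∣ 7 * (Yj j * d - (7 * Yj j * j + dj j * l) * Y) := by
    intro j
    refine h2c.mul_dvd ?_ (cj2 j)
    exact Dvd.dvd.mul_left (dvd_sub (Dvd.dvd.mul_right (pj j).2.2 _) (Dvd.dvd.mul_left g4 _)) _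
  have ci3 : 2 * (7 : ℤ) ^ (s + 1) ∣ 7 * (Yi * l * d - di * Y) := by
    refine h2c.mul_dvd ?_ ci2
    exact Dvd.dvd.mul_left (dvd_sub (Dvd.dvd.mul_right (Dvd.dvd.mul_right pi'.2.2 _) _) (Dvd.dvd.mul_left g4 _)) _
  -- the family
  let e : Fin l ≃ J := (Finset.equivFinOfCardEq hJ).symm
  let δ : Fin (l + 1) → Matrix (Fin 2) (Fin 2) ℤ := Fin.cons (DI Xi Yi di X Y d l)
    (fun i => DJ (Xj (e i)) (Yj (e i)) (dj (e i)) X Y d (e i) l)
  have hδ0 : δ 0 = DI Xi Yi di X Y d l := rfl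
  have hδs : ∀ i : Fin l, δ i.succ = DJ (Xj (e i)) (Yj (e i)) (dj (e i)) X Y d (e i) l := fun i => rfl
  have hDJ : ∀ j : ℤ, (DJ (Xj j) (Yj j) (dj j) X Y d j l).det = l ∧
      (7 : ℤ) ^ r ∣ (DJ (Xj j) (Yj j) (dj j) X Y d j l) 0 1 ∧
      2 * (7 : ℤ) ^ (s + 1) ∣ (DJ (Xj j) (Yj j) (dj j) X Y d j l) 1 0 := by
    intro j
    refine ⟨?_, ?_, ?_⟩
    · rw [DJ, Matrix.det_mul, Matrix.det_mul, sm_det _ _ _ (hdetj j), si_det _ _ _ hdet,
        Matrix.det_fin_two_of]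
      ring
    · rw [DJ_eq]
      have := cj1 j
      convert this using 1
      simp
      ring
    · rw [DJ_eq]
      have := cj3 j
      convert this using 1
      simp
      ring
  have hDI : (DI Xi Yi di X Y d l).det = l ∧
      (7 : ℤ) ^ r ∣ (DI Xi Yi di X Y d l) 0 1 ∧
      2 * (7 : ℤ) ^ (s + 1) ∣ (DI Xi Yi di X Y d l) 1 0 := by
    refine ⟨?_, ?_, ?_⟩
    · rw [DI, Matrix.det_mul, Matrix.det_mul, sm_det _ _ _ hdeti, si_det _ _ _ hdet,
        Matrix.det_fin_two_of]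
      ring
    · rw [DI_eq]
      convert ci1 using 1
      simp
      ring
    · rw [DI_eq]
      convert ci3 using 1
      simp
      ring
  have hpair : ∀ P P', P ≠ P' → ¬ ∀ i j, (l : ℤ) ∣ (δ P * (δ P').adjugate) i j := by
    have hl1 : ¬ (l : ℤ) ∣ 1 := by
      intro h
      have := Int.natCast_dvd_natCast.1 (by exact_mod_cast h : ((l : ℕ) : ℤ) ∣ ((1 : ℕ) : ℤ))
      exact hl.one_lt.ne' (Nat.dvd_one.1 this)
    intro P P' hne H
    induction P using Fin.cases with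
    | zero =>
      induction P' using Fin.cases with
      | zero => exact hne rfl
      | succ i' =>
        rw [hδ0, hδs] at H
        have := key l _ _ _ _ _ (sm_det _ _ _ hdeti) (sm_det _ _ _ (hdetj (e i'))) (si_det _ _ _ hdet) H 1 1
        apply hl1
        simpa [Matrix.adjugate_fin_two_of, Matrix.mul_apply, Fin.sum_univ_two] using this
    | succ i =>
      induction P' using Fin.cases with
      | zero =>
        rw [hδ0, hδs] at H
        have := key l _ _ _ _ _ (sm_det _ _ _ (hdetj (e i))) (sm_det _ _ _ hdeti) (si_det _ _ _ hdet) H 0 0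
        apply hl1
        simpa [Matrix.adjugate_fin_two_of, Matrix.mul_apply, Fin.sum_univ_two] using this
      | succ i' =>
        rw [hδs, hδs] at H
        have h1 := key l _ _ _ _ _ (sm_det _ _ _ (hdetj (e i))) (sm_det _ _ _ (hdetj (e i')))
          (si_det _ _ _ hdet) H 0 1
        have h2 : (l : ℤ) ∣ (e i : ℤ) - (e i' : ℤ) := by
          have e3 : (!![1, (e i : ℤ); 0, (l : ℤ)] * (!![1, (e i' : ℤ); 0, (l : ℤ)]).adjugate) 0 1 =
              (e i : ℤ) - (e i' : ℤ) := by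
            simp [Matrix.adjugate_fin_two_of, Matrix.mul_apply, Fin.sum_univ_two]
            ring
          rw [← e3]
          exact h1
        have h5 := hJ' _ (e i).2 _ (e i').2 h2
        apply hne
        congr 1
        exact e.injective (Subtype.ext h5)
  have hB := (hHkB R _ r (s + 1) l G hl hl2 hl22 hG).2 δ
    (by
      intro P
      induction P using Fin.cases with
      | zero => rw [hδ0]; exact hDI.1
      | succ i => rw [hδs]; exact (hDJ _).1)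
    (by
      intro P
      induction P using Fin.cases with
      | zero => rw [hδ0]; exact hDI.2.1
      | succ i => rw [hδs]; exact (hDJ _).2.1)
    (by
      intro P
      induction P using Fin.cases with
      | zero => rw [hδ0]; exact hDI.2.2
      | succ i => rw [hδs]; exact (hDJ _).2.2)
    hpair
  have hg : ∀ w1 w2 : ℤ, (w1 ≠ 0 ∨ w2 ≠ 0) →
      (w1 + X * w2 : ℤ) ≠ 0 ∨ (7 * Y * w1 + d * w2 : ℤ) ≠ 0 := by
    intro w1 w2 hw
    by_contra hcon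
    push Not at hcon
    obtain ⟨k1, k2⟩ := hcon
    have k3 : w2 = 0 := by linear_combination k2 - 7 * Y * k1 - w2 * hdet
    have k4 : w1 = 0 := by linear_combination k1 - X * k3
    rcases hw with hw | hw
    · exact hw k4
    · exact hw k3
  have hdiff := hB.diff (hg u1 u2 hu) (hg v1 v2 hv)
  have hleft : edgeH 0 u1 u2 v1 v2 (Tl l (7 ^ r) G) x y =
      Tl l (7 ^ r) G (u1 + X * u2) (7 * Y * u1 + d * u2) -
      Tl l (7 ^ r) G (v1 + X * v2) (7 * Y * v1 + d * v2) := edge0 _ _ _ _ _ _ _ _ _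
  rw [hleft, ← hdiff, ← Finset.sum_sub_distrib, Fin.sum_univ_succ]
  congr 1
  · -- the term at infinity
    rw [tr_inf, ← hxi, ← hyi]
    have hr : edgeH 0 (l * u1) u2 (l * v1) v2 G xi yi =
      G ((l : ℤ) * u1 + Xi * u2) (7 * Yi * ((l : ℤ) * u1) + di * u2) -
      G ((l : ℤ) * v1 + Xi * v2) (7 * Yi * ((l : ℤ) * v1) + di * v2) := edge0 _ _ _ _ _ _ _ _ _
    rw [hr, hδ0, DI_eq]
    have k : ∀ w1 w2 : ℤ, G ((!![(l : ℤ) * d - Xi * (7 * Y), -((l : ℤ) * X) + Xi;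
        7 * Yi * (l : ℤ) * d - di * (7 * Y), -(7 * Yi * (l : ℤ)) * X + di] : Matrix (Fin 2) (Fin 2) ℤ) 0 0 *
          (w1 + X * w2) + (!![(l : ℤ) * d - Xi * (7 * Y), -((l : ℤ) * X) + Xi;
        7 * Yi * (l : ℤ) * d - di * (7 * Y), -(7 * Yi * (l : ℤ)) * X + di] : Matrix (Fin 2) (Fin 2) ℤ) 0 1 *
          (7 * Y * w1 + d * w2))
        ((!![(l : ℤ) * d - Xi * (7 * Y), -((l : ℤ) * X) + Xi;
        7 * Yi * (l : ℤ) * d - di * (7 * Y), -(7 * Yi * (l : ℤ)) * X + di] : Matrix (Fin 2) (Fin 2) ℤ) 1 0 *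
          (w1 + X * w2) + (!![(l : ℤ) * d - Xi * (7 * Y), -((l : ℤ) * X) + Xi;
        7 * Yi * (l : ℤ) * d - di * (7 * Y), -(7 * Yi * (l : ℤ)) * X + di] : Matrix (Fin 2) (Fin 2) ℤ) 1 1 *
          (7 * Y * w1 + d * w2)) =
        G ((l : ℤ) * w1 + Xi * w2) (7 * Yi * ((l : ℤ) * w1) + di * w2) := by
      intro w1 w2
      congr 1
      · simp
        linear_combination ((l : ℤ) * w1 + Xi * w2) * hdet
      · simp
        linear_combination (7 * Yi * (l : ℤ) * w1 + di * w2) * hdet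
    rw [k u1 u2, k v1 v2]
  · -- the other terms
    have hsum : ∀ f : ℤ → R, ∑ i : Fin l, f (e i) = ∑ j ∈ J, f j := by
      intro f
      rw [Equiv.sum_comp e (fun j : J => f j), Finset.sum_coe_sort J f]
    rw [← hsum]
    refine Finset.sum_congr rfl fun i _ => ?_
    rw [tr_j]
    have hr : edgeH 0 (u1 + (e i : ℤ) * u2) (l * u2) (v1 + (e i : ℤ) * v2) (l * v2) G (xj (e i)) (yj (e i)) =
      G (u1 + (e i : ℤ) * u2 + Xj (e i) * ((l : ℤ) * u2))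
        (7 * Yj (e i) * (u1 + (e i : ℤ) * u2) + dj (e i) * ((l : ℤ) * u2)) -
      G (v1 + (e i : ℤ) * v2 + Xj (e i) * ((l : ℤ) * v2))
        (7 * Yj (e i) * (v1 + (e i : ℤ) * v2) + dj (e i) * ((l : ℤ) * v2)) := edge0 _ _ _ _ _ _ _ _ _
    change _ = edgeH 0 (u1 + (e i : ℤ) * u2) (l * u2) (v1 + (e i : ℤ) * v2) (l * v2) G (xj (e i)) (yj (e i))
    rw [hr, hδs, DJ_eq]
    congr 1
    · congr 1
      · simp
        linear_combination (u1 + ((e i : ℤ) + Xj (e i) * (l : ℤ)) * u2) * hdet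
      · simp
        linear_combination (7 * Yj (e i) * u1 +
          (7 * Yj (e i) * (e i : ℤ) + dj (e i) * (l : ℤ)) * u2) * hdet
    · congr 1
      · simp
        linear_combination (v1 + ((e i : ℤ) + Xj (e i) * (l : ℤ)) * v2) * hdet
      · simp
        linear_combination (7 * Yj (e i) * v1 +
          (7 * Yj (e i) * (e i : ℤ) + dj (e i) * (l : ℤ)) * v2) * hdet

end Pool.Agent.Helper89.TH7
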